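import Pool.Agent.H.MP_a5b52c_an.A

set_option autoImplicit false

namespace Pool.Agent.Results.MP_a5b52c_an.NotDense

open Set Metric

def ienv {𝕜 X : Type} [RCLike 𝕜] [NormedAddCommGroup X] [NormedSpace 𝕜 X]
    (A : Set (StrongDual 𝕜 X)) : Set (StrongDual 𝕜 X) :=
  ⋂ C ∈ {C : ℕ → Set (StrongDual 𝕜 X) | ⋃ n, C n = A}, closure (convexHull ℝ (⋃ n,
    StrongDual.toWeakDual ⁻¹' closure (StrongDual.toWeakDual '' convexHull ℝ (C n))))

open Pool.Agent.H.MP_a5b52c_an in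
theorem result (𝕜 : Type) [RCLike 𝕜] :
    ∃ (X : Type) (_ : NormedAddCommGroup X) (_ : NormedSpace 𝕜 X) (_ : CompleteSpace X)
      (A : Set (StrongDual 𝕜 X)),
      ¬ ienv A ⊆ closure (⋃ n : ℕ, ienv (A ∩ closedBall 0 n)) := by
  refine ⟨X 𝕜, inferInstance, inferInstance, inferInstance, range (xi 𝕜), fun h => ?_⟩
  obtain ⟨ζ, h1, h2⟩ := Metric.mem_closure_iff.1 (h zero_mem) 1 one_pos
  obtain ⟨n, hn⟩ := mem_iUnion.1 h1
  rw [inter_comm, ← image_preimage_eq_inter_range] at hn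
  rw [dist_zero_left] at h2
  refine h2.not_ge (far n (fun γ hγ => ?_) hn)
  obtain ⟨z, z1, z2⟩ := exz (𝕜 := 𝕜) γ
  have := ((z2 γ).2 le_rfl).ge.trans ((RCLike.re_le_norm _).trans (((xi 𝕜 γ).le_opNorm z).trans
    ((mul_le_of_le_one_right (norm_nonneg _) z1).trans (mem_closedBall_zero_iff.1 hγ))))
  exact_mod_cast (le_add_of_nonneg_right zero_le_one).trans this

end Pool.Agent.Results.MP_a5b52c_an.NotDense
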